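import Mathlib
import Pool.Agent.helper87.TTFinal

/-! In ZFC, `ℵ₁` many candidates for diamond minus can be defeated by a Tukey-top ultrafilter. -/

namespace Pool.Agent.Results.MP_522602_lc.AlephOneTriples

/-- `U` is Tukey-top: there is a family of continuum many sets in `U`, indexed by a type `κ` of
cardinality the continuum, such that the intersection over every countably infinite set of indices
is not in `U`. -/
def TukeyTop (U : Ultrafilter ℕ) : Prop :=
  ∃ (κ : Type) (A : κ → Set ℕ), Cardinal.mk κ = Cardinal.continuum ∧ (∀ i, A i ∈ U) ∧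
    ∀ I : Set κ, I.Countable → I.Infinite → (⋂ i ∈ I, A i) ∉ U

/-- `(f, π, 𝒜)` guesses every member of `T` modulo `U`: conditions 1, 2 and 3 in the definition of
`◇⁻(U)`.  So `◇⁻(U)` holds iff some `(f, π, 𝒜)` guesses a set `T` of continuum many sets. -/
def Guesses (U : Ultrafilter ℕ) (f π : ℕ → ℕ) (𝒜 : ℕ → Set (Set ℕ)) (T : Set (Set ℕ)) : Prop :=
  (∀ n, (∀ a ∈ 𝒜 n, a ⊆ {k | k < f n}) ∧ (𝒜 n).encard ≤ π n) ∧
    (∀ X ∈ T, {n | X ∩ {k | k < f n} ∈ 𝒜 n} ∈ U) ∧
    ∀ g : ℕ → ℕ, {n | g (π n) < f n} ∈ U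

/-- For any `ℵ₁` (or fewer) triples `(f, π, 𝒜)` there is a Tukey-top ultrafilter modulo which each
of the triples guesses only countably many sets (so none of them witnesses diamond minus). -/
theorem result {ι : Type} (hι : Cardinal.mk ι ≤ Cardinal.aleph 1) (f π : ι → ℕ → ℕ)
    (𝒜 : ι → ℕ → Set (Set ℕ)) :
    ∃ U : Ultrafilter ℕ, TukeyTop U ∧
      ∀ (i : ι) (T : Set (Set ℕ)), Guesses U (f i) (π i) (𝒜 i) T → T.Countable := by
  obtain ⟨U, hU, h⟩ := helper87.TT.main_zfc hι f π (fun i n => helper87.TT.fin (𝒜 i n))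
  exact ⟨U, hU, fun i T hT => helper87.TT.guess_countable hT (h i)⟩

end Pool.Agent.Results.MP_522602_lc.AlephOneTriples
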