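import Mathlib
import Pool.Agent.helper87.TTFinal

/-! The continuum hypothesis implies that some Tukey-top ultrafilter fails diamond minus. -/

namespace Pool.Agent.Results.MP_522602_lc.TopWithoutDiamondMinus

/-- `U` is Tukey-top: there is a family of continuum many sets in `U`, indexed by a type `ι` of
cardinality the continuum, such that the intersection over every countably infinite set of indices
is not in `U`. -/
def TukeyTop (U : Ultrafilter ℕ) : Prop :=
  ∃ (ι : Type) (A : ι → Set ℕ), Cardinal.mk ι = Cardinal.continuum ∧ (∀ i, A i ∈ U) ∧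
    ∀ I : Set ι, I.Countable → I.Infinite → (⋂ i ∈ I, A i) ∉ U

/-- `◇⁻(U)`: there are `f, π : ℕ → ℕ`, families `𝒜 n` of subsets of `{0, …, f n - 1}` with at most
`π n` members, and a set `T` of continuum many subsets of `ℕ`, such that every `X ∈ T` satisfies
`X ∩ f n ∈ 𝒜 n` for `U`-almost all `n`, and for every `g`, `g (π n) < f n` for `U`-almost all
`n`. -/
def DiamondMinus (U : Ultrafilter ℕ) : Prop :=
  ∃ (f π : ℕ → ℕ) (𝒜 : ℕ → Set (Set ℕ)) (T : Set (Set ℕ)),
    Cardinal.mk T = Cardinal.continuum ∧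
    (∀ n, (∀ a ∈ 𝒜 n, a ⊆ {k | k < f n}) ∧ (𝒜 n).encard ≤ π n) ∧
    (∀ X ∈ T, {n | X ∩ {k | k < f n} ∈ 𝒜 n} ∈ U) ∧
    ∀ g : ℕ → ℕ, {n | g (π n) < f n} ∈ U

/-- Under the continuum hypothesis there is a Tukey-top ultrafilter on `ℕ` for which diamond minus
fails.  Hence ZFC (if consistent) does not prove that every Tukey-top ultrafilter satisfies
diamond minus. -/
theorem result (CH : (Cardinal.aleph 1 : Cardinal.{0}) = Cardinal.continuum) :
    ∃ U : Ultrafilter ℕ, TukeyTop U ∧ ¬ DiamondMinus U := by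
  obtain ⟨U, hU, h⟩ := helper87.TT.main_zfc
    (ι := (ℕ → ℕ) × (ℕ → ℕ) × (ℕ → Finset (Finset ℕ)))
    (by rw [helper87.TT.mk_triples, CH]) (fun i => i.1) (fun i => i.2.1) (fun i => i.2.2)
  refine ⟨U, hU, ?_⟩
  rintro ⟨f, π, 𝒜, T, hT, h1, h2, h3⟩
  have hc : T.Countable := helper87.TT.guess_countable ⟨h1, h2, h3⟩
    (h (f, π, fun n => helper87.TT.fin (𝒜 n)))
  have := (Cardinal.le_aleph0_iff_set_countable.2 hc)
  rw [hT] at this
  exact absurd Cardinal.aleph0_lt_continuum (not_lt.2 this)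

end Pool.Agent.Results.MP_522602_lc.TopWithoutDiamondMinus
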